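import Pool.Agent.Helper32.Cotype.Defs

/-! Fourth moment bound for the phase-space chart transform (MP_f9ce33_an, request R4). -/

set_option autoImplicit false
set_option linter.unusedSectionVars false

open scoped BigOperators

namespace Pool.Agent.Cotype

namespace FM

/-- `L²` identity for a pairing with orthogonality. -/
theorem sq_sum {G B : Type} [Fintype G] [DecidableEq G] [AddCommGroup G] [Fintype B]
    (e : B → G → ℝ) (N : ℝ) (h2 : ∀ x : G, x + x = 0)
    (hadd : ∀ b x y, e b (x + y) = e b x * e b y)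
    (hsum : ∀ x, ∑ b, e b x = if x = 0 then N else 0) (F : G → ℝ) :
    ∑ b, (∑ u, e b u * F u) ^ 2 = N * ∑ u, F u ^ 2 := by
  have hneg : ∀ x y : G, x + y = 0 ↔ y = x := by
    intro x y
    constructor
    · intro h
      have := h2 x
      have h3 : x + y = x + x := by rw [h, this]
      exact add_left_cancel h3
    · rintro rfl; exact h2 _
  calc ∑ b, (∑ u, e b u * F u) ^ 2
      = ∑ b, ∑ u, ∑ v, e b (u + v) * (F u * F v) := by
        refine Finset.sum_congr rfl fun b _ => ?_
        rw [pow_two, Finset.sum_mul_sum]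
        refine Finset.sum_congr rfl fun u _ => Finset.sum_congr rfl fun v _ => ?_
        rw [hadd]; ring
    _ = ∑ u, ∑ v, (∑ b, e b (u + v)) * (F u * F v) := by
        rw [Finset.sum_comm]
        refine Finset.sum_congr rfl fun u _ => ?_
        rw [Finset.sum_comm]
        refine Finset.sum_congr rfl fun v _ => ?_
        rw [Finset.sum_mul]
    _ = N * ∑ u, F u ^ 2 := by
        rw [Finset.mul_sum]
        refine Finset.sum_congr rfl fun u _ => ?_
        simp only [hsum, hneg, ite_mul, zero_mul]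
        rw [Finset.sum_ite_eq' Finset.univ u]
        simp [pow_two]

/-- `L⁴` identity for a pairing with orthogonality. -/
theorem four_sum {G B : Type} [Fintype G] [DecidableEq G] [AddCommGroup G] [Fintype B]
    (e : B → G → ℝ) (N : ℝ) (h2 : ∀ x : G, x + x = 0)
    (hadd : ∀ b x y, e b (x + y) = e b x * e b y)
    (hsum : ∀ x, ∑ b, e b x = if x = 0 then N else 0) (f : G → ℝ) :
    ∑ b, (∑ x, e b x * f x) ^ 4 = N * ∑ u, (∑ x, f x * f (x + u)) ^ 2 := by
  rw [← sq_sum e N h2 hadd hsum]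
  refine Finset.sum_congr rfl fun b _ => ?_
  have h : (∑ x, e b x * f x) ^ 2 = ∑ u, e b u * ∑ x, f x * f (x + u) := by
    rw [pow_two, Finset.sum_mul_sum]
    have h1 : ∀ x : G, ∑ j, e b x * f x * (e b j * f j) = ∑ u, e b u * (f x * f (x + u)) := by
      intro x
      rw [← Equiv.sum_comp (Equiv.addLeft x)]
      refine Finset.sum_congr rfl fun u _ => ?_
      simp only [Equiv.coe_addLeft]
      have : e b u = e b x * e b (x + u) := by
        rw [← hadd, ← add_assoc, h2, zero_add]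
      rw [this]; ring
    simp only [h1]
    rw [Finset.sum_comm]
    refine Finset.sum_congr rfl fun u _ => ?_
    rw [Finset.mul_sum]
  calc (∑ x, e b x * f x) ^ 4 = ((∑ x, e b x * f x) ^ 2) ^ 2 := by ring
    _ = _ := by rw [h]

section K

variable {K : Type} [Field K] [Fintype K] [CharP K 2]

omit [Fintype K] in
theorem two_zero (x : K) : x + x = 0 := CharTwo.add_self_eq_zero x

theorem psi_sum (ψ : K → ℝ) (hψ : IsChar ψ) : ∑ b, ψ b = 0 := by
  obtain ⟨z, hz⟩ := hψ.nontriv
  have h : ∑ b, ψ b = ∑ b, ψ (b + z) := (Equiv.sum_comp (Equiv.addRight z) ψ).symm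
  simp only [hψ.add, hz] at h
  rw [← Finset.sum_mul] at h
  linarith

omit [Fintype K] [CharP K 2] in
theorem psi_zero (ψ : K → ℝ) (hψ : IsChar ψ) : ψ 0 = 1 := by
  have h := hψ.add 0 0
  rw [add_zero] at h
  rcases hψ.pm 0 with h1 | h1
  · exact h1
  · rw [h1] at h; norm_num at h

theorem psi_mul_sum [DecidableEq K] (ψ : K → ℝ) (hψ : IsChar ψ) (x : K) :
    ∑ b, ψ (b * x) = if x = 0 then (Fintype.card K : ℝ) else 0 := by
  split_ifs with hx
  · subst hx
    simp [psi_zero ψ hψ]
  · rw [← psi_sum ψ hψ]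
    exact Equiv.sum_comp (Equiv.mulRight₀ x hx) ψ

theorem psi_mul_sum' [DecidableEq K] (ψ : K → ℝ) (hψ : IsChar ψ) (x : K × K) :
    ∑ b : K × K, ψ (b.1 * x.1 + b.2 * x.2) = if x = 0 then (Fintype.card K : ℝ) ^ 2 else 0 := by
  rw [Fintype.sum_prod_type]
  simp only [hψ.add]
  simp only [← Finset.mul_sum, ← Finset.sum_mul, psi_mul_sum ψ hψ]
  rcases x with ⟨x, y⟩
  by_cases hx : x = 0 <;> by_cases hy : y = 0 <;> simp [hx, hy, pow_two]

/-- `Q² Σ (Hc)⁴ = Σ_h (Σ_p c(p) c(p+h))²`. -/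
theorem H_four (ψ : K → ℝ) (hψ : IsChar ψ) (c : K × K → ℝ) :
    (Fintype.card K : ℝ) ^ 2 * ∑ p, (∑ q, Hm ψ p q * c q) ^ 4 =
      ∑ h : K × K, (∑ p, c p * c (p + h)) ^ 2 := by
  classical
  have hQ : (Fintype.card K : ℝ) ≠ 0 := by
    have : 0 < Fintype.card K := Fintype.card_pos
    exact_mod_cast this.ne'
  have h := four_sum (G := K × K) (B := K × K) (fun b x => ψ (b.1 * x.1 + b.2 * x.2))
    ((Fintype.card K : ℝ) ^ 2) (fun x => by
      rcases x with ⟨x, y⟩; simp [Prod.ext_iff, two_zero])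
    (fun b x y => by
      rw [← hψ.add]; congr 1; simp only [Prod.fst_add, Prod.snd_add]; ring)
    (fun x => psi_mul_sum' ψ hψ x) c
  have h3 : ∀ p : K × K, (∑ q, Hm ψ p q * c q) ^ 4 =
      (1 / (Fintype.card K : ℝ)) ^ 4 * (∑ q : K × K, ψ (p.1 * q.1 + p.2 * q.2) * c q) ^ 4 := by
    intro p
    rw [← mul_pow, Finset.mul_sum]
    congr 1
    refine Finset.sum_congr rfl fun q _ => ?_
    rw [Hm]; ring
  simp only [h3]
  rw [← Finset.mul_sum, h]
  field_simp

/-- shifting a sum -/
theorem sum_shift (f : K → ℝ) (z : K) : ∑ a, f (z + a) = ∑ a, f a :=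
  Equiv.sum_comp (Equiv.addLeft z) f

/-- affine substitution in a sum -/
theorem sum_affine (f : K → ℝ) (z w : K) (hw : w ≠ 0) : ∑ a, f (z + a * w) = ∑ a, f a := by
  rw [← sum_shift f z]
  exact Equiv.sum_comp (Equiv.mulRight₀ w hw) (fun a => f (z + a))

/-- the `u = 0` part -/
theorem part_zero (d : K → K → ℝ) (_hd : ∀ x y, 0 ≤ d x y) (m : K) :
    ∑ l, ∑ a, (∑ x, d x (l * x + m * x ^ 2 + a)) ^ 2 ≤
      (Fintype.card K : ℝ) * ∑ x, ∑ y, d x y ^ 2 + (∑ x, ∑ y, d x y) ^ 2 := by
  classical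
  have h1 : ∑ l, ∑ a, (∑ x, d x (l * x + m * x ^ 2 + a)) ^ 2 =
      ∑ x, ∑ x', ∑ l, ∑ a, d x (l * x + m * x ^ 2 + a) * d x' (l * x' + m * x' ^ 2 + a) := by
    simp only [pow_two (∑ x, d x _), Finset.sum_mul_sum]
    calc ∑ l, ∑ a, ∑ x, ∑ x', d x (l * x + m * x ^ 2 + a) * d x' (l * x' + m * x' ^ 2 + a)
        = ∑ l, ∑ x, ∑ a, ∑ x', d x (l * x + m * x ^ 2 + a) * d x' (l * x' + m * x' ^ 2 + a) :=
          Finset.sum_congr rfl fun l _ => Finset.sum_comm
      _ = ∑ l, ∑ x, ∑ x', ∑ a, d x (l * x + m * x ^ 2 + a) * d x' (l * x' + m * x' ^ 2 + a) :=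
          Finset.sum_congr rfl fun l _ => Finset.sum_congr rfl fun x _ => Finset.sum_comm
      _ = ∑ x, ∑ l, ∑ x', ∑ a, d x (l * x + m * x ^ 2 + a) * d x' (l * x' + m * x' ^ 2 + a) :=
          Finset.sum_comm
      _ = _ := Finset.sum_congr rfl fun x _ => Finset.sum_comm
  rw [h1]
  have h2 : ∀ x x', ∑ l, ∑ a, d x (l * x + m * x ^ 2 + a) * d x' (l * x' + m * x' ^ 2 + a) ≤
      (if x' = x then (Fintype.card K : ℝ) * ∑ y, d x y ^ 2 else 0) +
        (∑ y, d x y) * (∑ y, d x' y) := by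
    intro x x'
    split_ifs with hx
    · subst hx
      have h3 : ∀ l, ∑ a, d x' (l * x' + m * x' ^ 2 + a) * d x' (l * x' + m * x' ^ 2 + a) =
          ∑ y, d x' y ^ 2 := by
        intro l
        rw [sum_shift (fun y => d x' y * d x' y) (l * x' + m * x' ^ 2)]
        simp only [pow_two]
      simp only [h3]
      have h4 : 0 ≤ (∑ y, d x' y) * (∑ y, d x' y) := mul_self_nonneg _
      simp only [Finset.sum_const, Finset.card_univ, nsmul_eq_mul]
      linarith
    · have h3 : ∀ l, ∑ a, d x (l * x + m * x ^ 2 + a) * d x' (l * x' + m * x' ^ 2 + a) =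
          ∑ y, d x y * d x' ((y + m * (x + x') ^ 2) + l * (x + x')) := by
        intro l
        rw [← sum_shift (fun y => d x y * d x' ((y + m * (x + x') ^ 2) + l * (x + x')))
          (l * x + m * x ^ 2)]
        refine Finset.sum_congr rfl fun a _ => ?_
        congr 2
        have e1 := two_zero (l * x)
        have e2 := two_zero (m * x ^ 2)
        have e3 := two_zero (m * x * x')
        linear_combination -e1 - e2 - e3
      simp only [h3]
      rw [Finset.sum_comm]
      simp only [← Finset.mul_sum]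
      have hne : x + x' ≠ 0 := by
        intro h
        apply hx
        have := two_zero x
        have h4 : x + x' = x + x := by rw [h, this]
        exact add_left_cancel h4
      simp only [sum_affine (d x') _ _ hne]
      rw [← Finset.sum_mul]
      linarith
  calc _ ≤ ∑ x, ∑ x', ((if x' = x then (Fintype.card K : ℝ) * ∑ y, d x y ^ 2 else 0) +
        (∑ y, d x y) * (∑ y, d x' y)) :=
        Finset.sum_le_sum fun x _ => Finset.sum_le_sum fun x' _ => h2 x x'
    _ = _ := by
        simp only [Finset.sum_add_distrib]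
        congr 1
        · rw [Finset.mul_sum]
          refine Finset.sum_congr rfl fun x _ => ?_
          rw [Finset.sum_ite_eq' Finset.univ x]
          simp
        · rw [pow_two, Finset.sum_mul_sum]

/-- the `u ≠ 0` part, for fixed `u` and `s` -/
theorem part_nonzero (C : K → K → ℝ) (u s : K) (hu : u ≠ 0)
    (hC : ∀ x y, C (x + u) (y + s) = C x y) :
    ∑ m, ∑ a, (∑ x, C x ((s / u + m * u) * x + m * x ^ 2 + a)) ^ 2 ≤
      2 * (Fintype.card K : ℝ) * ∑ x, ∑ y, C x y ^ 2 + (∑ x, ∑ y, C x y) ^ 2 := by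
  classical
  have h1 : ∑ m, ∑ a, (∑ x, C x ((s / u + m * u) * x + m * x ^ 2 + a)) ^ 2 =
      ∑ x, ∑ v, ∑ m, ∑ y, C x y * C (x + v) ((y + (s / u) * v) + m * (v * (u + v))) := by
    simp only [pow_two (∑ x, C x _), Finset.sum_mul_sum]
    calc ∑ m, ∑ a, ∑ x, ∑ x', C x ((s / u + m * u) * x + m * x ^ 2 + a) *
            C x' ((s / u + m * u) * x' + m * x' ^ 2 + a)
        = ∑ m, ∑ x, ∑ x', ∑ a, C x ((s / u + m * u) * x + m * x ^ 2 + a) *
            C x' ((s / u + m * u) * x' + m * x' ^ 2 + a) := by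
          refine Finset.sum_congr rfl fun m _ => ?_
          rw [Finset.sum_comm]
          exact Finset.sum_congr rfl fun x _ => Finset.sum_comm
      _ = ∑ m, ∑ x, ∑ v, ∑ y, C x y * C (x + v) ((y + (s / u) * v) + m * (v * (u + v))) := by
          refine Finset.sum_congr rfl fun m _ => Finset.sum_congr rfl fun x _ => ?_
          rw [← Equiv.sum_comp (Equiv.addLeft x)]
          refine Finset.sum_congr rfl fun v _ => ?_
          simp only [Equiv.coe_addLeft]
          rw [← sum_shift (fun y => C x y * C (x + v) ((y + (s / u) * v) + m * (v * (u + v))))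
            ((s / u + m * u) * x + m * x ^ 2)]
          refine Finset.sum_congr rfl fun a _ => ?_
          congr 2
          have e3 := two_zero (m * x * v)
          linear_combination e3
      _ = ∑ x, ∑ m, ∑ v, ∑ y, C x y * C (x + v) ((y + (s / u) * v) + m * (v * (u + v))) :=
          Finset.sum_comm
      _ = _ := Finset.sum_congr rfl fun x _ => Finset.sum_comm
  rw [h1]
  set r : K → ℝ := fun x => ∑ y, C x y with hr
  have hru : ∀ x, r (x + u) = r x := by
    intro x
    simp only [hr]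
    rw [← sum_shift (fun y => C (x + u) y) s]
    refine Finset.sum_congr rfl fun y _ => ?_
    rw [add_comm s y, hC]
  have h2 : ∀ x v, ∑ m, ∑ y, C x y * C (x + v) ((y + (s / u) * v) + m * (v * (u + v))) =
      r x * r (x + v) + (if v = 0 then (Fintype.card K : ℝ) * ∑ y, C x y ^ 2 - r x ^ 2 else 0)
        + (if v = u then (Fintype.card K : ℝ) * ∑ y, C x y ^ 2 - r x ^ 2 else 0) := by
    intro x v
    by_cases hv : v = 0
    · subst hv
      simp only [add_zero, mul_zero, zero_mul, if_true, if_neg hu.symm]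
      simp only [Finset.sum_const, Finset.card_univ, nsmul_eq_mul, pow_two]
      ring
    · by_cases hvu : v = u
      · subst hvu
        have h5 : s / v * v = s := div_mul_cancel₀ s hu
        simp only [two_zero v, mul_zero, add_zero, h5, hC, if_neg hu, if_true, hru]
        simp only [Finset.sum_const, Finset.card_univ, nsmul_eq_mul, pow_two]
        ring
      · rw [if_neg hv, if_neg hvu, add_zero, add_zero, Finset.sum_comm]
        have hne : v * (u + v) ≠ 0 := by
          apply mul_ne_zero hv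
          intro h
          apply hvu
          have := two_zero u
          have h4 : u + v = u + u := by rw [h, this]
          exact add_left_cancel h4
        simp only [← Finset.mul_sum]
        simp only [sum_affine (C (x + v)) _ _ hne]
        rw [← Finset.sum_mul]
  simp only [h2]
  simp only [Finset.sum_add_distrib, Finset.sum_ite_eq', Finset.mem_univ, if_true]
  have h3 : ∀ x, ∑ v, r x * r (x + v) = r x * ∑ v, r v := by
    intro x
    rw [← Finset.mul_sum, sum_shift r x]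
  simp only [h3]
  rw [← Finset.sum_mul]
  simp only [Finset.sum_sub_distrib]
  rw [← Finset.mul_sum]
  have h6 : 0 ≤ ∑ x, r x ^ 2 := Finset.sum_nonneg fun x _ => sq_nonneg _
  have h7 : (∑ x, ∑ y, C x y) = ∑ x, r x := rfl
  rw [h7]
  nlinarith [h6]

end K

end FM

open FM in
theorem fourth_moment {K : Type} [Field K] [Fintype K] [CharP K 2] (ψ : K → ℝ) (hψ : IsChar ψ)
    (c : K × K → ℝ) :
    ∑ t, (Rop ψ c t) ^ 4 ≤
      (Fintype.card K : ℝ) ^ 3 * (∑ p, c p ^ 4 + ∑ p, (∑ q, Hm ψ p q * c q) ^ 4)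
        + 3 * (Fintype.card K : ℝ) ^ 2 * (∑ p, c p ^ 2) ^ 2 := by
  classical
  set Q : ℝ := (Fintype.card K : ℝ) with hQdef
  have hQ0 : 0 < Q := by
    have : 0 < Fintype.card K := Fintype.card_pos
    rw [hQdef]; exact_mod_cast this
  -- step 1
  have h1 : ∑ t, (Rop ψ c t) ^ 4 =
      Q * ∑ u, ∑ m, ∑ l, ∑ a, (∑ x, c (x, l * x + m * x ^ 2 + a) *
        c (x + u, l * (x + u) + m * (x + u) ^ 2 + a)) ^ 2 := by
    rw [Fintype.sum_prod_type]
    have h11 : ∀ l : K, ∑ t : K × K × K, (Rop ψ c (l, t)) ^ 4 =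
        ∑ m, ∑ a, Q * ∑ u, (∑ x, c (x, l * x + m * x ^ 2 + a) *
        c (x + u, l * (x + u) + m * (x + u) ^ 2 + a)) ^ 2 := by
      intro l
      rw [Fintype.sum_prod_type]
      refine Finset.sum_congr rfl fun m _ => ?_
      rw [Fintype.sum_prod_type]
      refine Finset.sum_congr rfl fun a _ => ?_
      exact four_sum (G := K) (B := K) (fun b x => ψ (b * x)) Q two_zero
        (fun b x y => by rw [← hψ.add]; congr 1; ring)
        (fun x => psi_mul_sum ψ hψ x) (fun x => c (x, l * x + m * x ^ 2 + a))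
    simp only [h11]
    rw [Finset.mul_sum]
    simp only [Finset.mul_sum]
    calc ∑ l, ∑ m, ∑ a, ∑ u, Q * (∑ x, c (x, l * x + m * x ^ 2 + a) *
            c (x + u, l * (x + u) + m * (x + u) ^ 2 + a)) ^ 2
        = ∑ m, ∑ l, ∑ a, ∑ u, Q * (∑ x, c (x, l * x + m * x ^ 2 + a) *
            c (x + u, l * (x + u) + m * (x + u) ^ 2 + a)) ^ 2 := Finset.sum_comm
      _ = ∑ m, ∑ l, ∑ u, ∑ a, Q * (∑ x, c (x, l * x + m * x ^ 2 + a) *
            c (x + u, l * (x + u) + m * (x + u) ^ 2 + a)) ^ 2 :=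
          Finset.sum_congr rfl fun m _ => Finset.sum_congr rfl fun l _ => Finset.sum_comm
      _ = ∑ m, ∑ u, ∑ l, ∑ a, Q * (∑ x, c (x, l * x + m * x ^ 2 + a) *
            c (x + u, l * (x + u) + m * (x + u) ^ 2 + a)) ^ 2 :=
          Finset.sum_congr rfl fun m _ => Finset.sum_comm
      _ = _ := Finset.sum_comm
  -- u = 0
  have h0 : ∑ m, ∑ l, ∑ a, (∑ x, c (x, l * x + m * x ^ 2 + a) *
        c (x + 0, l * (x + 0) + m * (x + 0) ^ 2 + a)) ^ 2 ≤
      Q * (Q * ∑ p, c p ^ 4 + (∑ p, c p ^ 2) ^ 2) := by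
    have h01 : ∀ m : K, ∑ l, ∑ a, (∑ x, c (x, l * x + m * x ^ 2 + a) *
        c (x + 0, l * (x + 0) + m * (x + 0) ^ 2 + a)) ^ 2 ≤
        Q * ∑ p, c p ^ 4 + (∑ p, c p ^ 2) ^ 2 := by
      intro m
      have := part_zero (fun x y => c (x, y) ^ 2) (fun x y => sq_nonneg _) m
      simp only [add_zero, ← pow_two]
      rw [Fintype.sum_prod_type, Fintype.sum_prod_type]
      refine this.trans (le_of_eq ?_)
      simp only [← pow_mul]
      rfl
    calc _ ≤ ∑ m : K, (Q * ∑ p, c p ^ 4 + (∑ p, c p ^ 2) ^ 2) :=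
          Finset.sum_le_sum fun m _ => h01 m
      _ = _ := by
          rw [Finset.sum_const, Finset.card_univ, nsmul_eq_mul]
  -- u ≠ 0
  have hne : ∀ u : K, u ≠ 0 → ∑ m, ∑ l, ∑ a, (∑ x, c (x, l * x + m * x ^ 2 + a) *
        c (x + u, l * (x + u) + m * (x + u) ^ 2 + a)) ^ 2 ≤
      ∑ s, (2 * Q * ∑ p, (c p * c (p + (u, s))) ^ 2 + (∑ p, c p * c (p + (u, s))) ^ 2) := by
    intro u hu
    have e1 : ∀ m : K, ∑ l, ∑ a, (∑ x, c (x, l * x + m * x ^ 2 + a) *
        c (x + u, l * (x + u) + m * (x + u) ^ 2 + a)) ^ 2 =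
        ∑ s, ∑ a, (∑ x, c (x, (s / u + m * u) * x + m * x ^ 2 + a) *
          c (x + u, ((s / u + m * u) * x + m * x ^ 2 + a) + s)) ^ 2 := by
      intro m
      rw [← sum_affine (fun l => ∑ a, (∑ x, c (x, l * x + m * x ^ 2 + a) *
        c (x + u, l * (x + u) + m * (x + u) ^ 2 + a)) ^ 2) (m * u) (1 / u)
        (one_div_ne_zero hu)]
      refine Finset.sum_congr rfl fun s _ => Finset.sum_congr rfl fun a _ => ?_
      congr 1
      refine Finset.sum_congr rfl fun x _ => ?_
      have e2 : m * u + s * (1 / u) = s / u + m * u := by ring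
      rw [e2]
      congr 3
      have e3 := two_zero (m * x * u)
      have e4 := two_zero (m * u ^ 2)
      have e5 : s / u * u = s := div_mul_cancel₀ s hu
      linear_combination e3 + e4 + e5
    simp only [e1]
    rw [Finset.sum_comm]
    refine Finset.sum_le_sum fun s _ => ?_
    have := part_nonzero (fun x y => c (x, y) * c (x + u, y + s)) u s hu (by
      intro x y
      have e6 : x + u + u = x := by rw [add_assoc, two_zero, add_zero]
      have e7 : y + s + s = y := by rw [add_assoc, two_zero, add_zero]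
      simp only [e6, e7]
      ring)
    refine this.trans (le_of_eq ?_)
    rw [Fintype.sum_prod_type, Fintype.sum_prod_type]
    rfl
  rw [h1]
  have hsplit : ∑ u, ∑ m, ∑ l, ∑ a, (∑ x, c (x, l * x + m * x ^ 2 + a) *
        c (x + u, l * (x + u) + m * (x + u) ^ 2 + a)) ^ 2 ≤
      Q * (Q * ∑ p, c p ^ 4 + (∑ p, c p ^ 2) ^ 2) +
      ∑ u, ∑ s, (2 * Q * ∑ p, (c p * c (p + (u, s))) ^ 2 + (∑ p, c p * c (p + (u, s))) ^ 2) := by
    have hpos : ∀ u : K, 0 ≤ ∑ s,
        (2 * Q * ∑ p, (c p * c (p + (u, s))) ^ 2 + (∑ p, c p * c (p + (u, s))) ^ 2) := by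
      intro u
      positivity
    rw [← Finset.add_sum_erase Finset.univ _ (Finset.mem_univ (0 : K))]
    refine add_le_add h0 ?_
    calc _ ≤ ∑ u ∈ Finset.univ.erase (0 : K), ∑ s,
          (2 * Q * ∑ p, (c p * c (p + (u, s))) ^ 2 + (∑ p, c p * c (p + (u, s))) ^ 2) :=
          Finset.sum_le_sum fun u hu => hne u (Finset.ne_of_mem_erase hu)
      _ ≤ _ := Finset.sum_le_sum_of_subset_of_nonneg (Finset.subset_univ _)
          (fun u _ _ => hpos u)
  have hlast : ∑ u, ∑ s, (2 * Q * ∑ p, (c p * c (p + (u, s))) ^ 2 +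
      (∑ p, c p * c (p + (u, s))) ^ 2) =
      2 * Q * (∑ p, c p ^ 2) ^ 2 + Q ^ 2 * ∑ p, (∑ q, Hm ψ p q * c q) ^ 4 := by
    rw [H_four ψ hψ c]
    rw [← Fintype.sum_prod_type' (f := fun u s => (2 * Q * ∑ p, (c p * c (p + (u, s))) ^ 2 +
      (∑ p, c p * c (p + (u, s))) ^ 2))]
    rw [Finset.sum_add_distrib, ← Finset.mul_sum]
    congr 2
    rw [Finset.sum_comm, pow_two, Finset.sum_mul]
    refine Finset.sum_congr rfl fun p _ => ?_
    simp only [mul_pow]
    rw [← Finset.mul_sum]
    congr 1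
    exact Equiv.sum_comp (Equiv.addLeft p) (fun q => c q ^ 2)
  rw [hlast] at hsplit
  calc Q * _ ≤ Q * _ := mul_le_mul_of_nonneg_left hsplit hQ0.le
    _ = _ := by ring

end Pool.Agent.Cotype
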